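import Pool.Agent.Helper456.ES.Final

/-!
# Monochromatic convex polygons in two-coloured point sets (MP_6c3374_co)
-/

set_option autoImplicit false

namespace Pool.Agent.H886R2.Mono

open Pool.Agent.Helper456.ES Finset
open scoped Classical

lemma Ch.mono_set {S S' : Finset E} {t σ : ℝ} (h : S ⊆ S') : ∀ (m : ℕ) (p q : E),
    Ch S t σ m p q → Ch S' t σ m p q := by
  intro m
  induction m with
  | zero =>
    rintro p q ⟨h1, h2, h3⟩
    exact ⟨h h1, h h2, h3⟩
  | succ m ih =>
    rintro p q ⟨h1, h2, o, ho, hd⟩
    exact ⟨h h1, h2, o, ih o p ho, hd⟩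

/-- the vertices of a cup or cap with at least two edges are in convex position -/
lemma chain_HV {P : Finset E} (hP : GP P) {t σ : ℝ} (hσ : σ ≠ 0) {L : ℕ} (hL : 1 ≤ L) {x : ℕ → E}
    (h : Chain P t σ L x) (T : Finset E) (hT : T = (range (L + 1)).image x) :
    T ⊆ P ∧ T.card = L + 1 ∧ HV T = T := by
  have hTP : T ⊆ P := by
    rw [hT]
    intro z hz
    obtain ⟨i, hi, rfl⟩ := mem_image.mp hz
    exact h.mem i (by rw [mem_range] at hi; omega)
  refine ⟨hTP, ?_, ?_⟩
  · rw [hT, card_image_of_injOn, card_range]
    intro i hi j hj hij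
    simp only [coe_range, Set.mem_Iio] at hi hj
    exact h.inj (by omega) (by omega) hij
  · have hedge : ∀ i, i + 1 ≤ L → x i ∈ HV T ∧ x (i + 1) ∈ HV T := by
      intro i hi
      have hm : ∀ j, j ≤ L → x j ∈ T := by
        intro j hj
        rw [hT]
        exact mem_image_of_mem x (mem_range.mpr (by omega))
      refine hv_of_edge (hP.mono hTP) (hm i (by omega)) (hm (i + 1) hi) ?_ hσ ?_
      · intro he
        have := h.inj (by omega) hi he
        omega
      · intro z hz
        rw [hT] at hz
        obtain ⟨m, hm', rfl⟩ := mem_image.mp hz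
        rw [mem_range] at hm'
        by_cases h1 : m = i
        · rw [h1, det_left, mul_zero]
        · by_cases h2 : m = i + 1
          · rw [h2, det_right, mul_zero]
          · exact (h.inner hi (by omega) h1 h2).le
    refine Subset.antisymm (filter_subset _ _) ?_
    intro z hz
    rw [hT] at hz
    obtain ⟨m, hm, rfl⟩ := mem_image.mp hz
    rw [mem_range] at hm
    rcases Nat.lt_or_ge m L with h1 | h1
    · exact (hedge m (by omega)).1
    · have : m = (m - 1) + 1 := by omega
      rw [this]
      exact (hedge (m - 1) (by omega)).2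

/-- The state of the greedy process: for both colours `κ` a monochromatic set `C κ` of chosen
points, all to the left of `S` and joined to `S` in colour `κ`, with pairwise different labels
`lam κ a`, the numbers of edges of a cup and of a cap of `C κ ∪ {s}` with last edge `(a, s)`. -/
structure Inv (P : Finset E) (t : ℝ) (c : Sym2 E → Bool) (l : ℕ) (C : Bool → Finset E)
    (lam : Bool → E → ℕ × ℕ) (S : Finset E) : Prop where
  subC : ∀ κ, C κ ⊆ P
  subS : S ⊆ P
  lt : ∀ κ, ∀ a ∈ C κ, ∀ s ∈ S, ψ t a < ψ t s
  colS : ∀ κ, ∀ a ∈ C κ, ∀ s ∈ S, c s(a, s) = κ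
  colC : ∀ κ, ∀ a ∈ C κ, ∀ b ∈ C κ, a ≠ b → c s(a, b) = κ
  ch1 : ∀ κ, ∀ a ∈ C κ, ∀ s ∈ S, Ch (insert s (C κ)) t 1 (lam κ a).1 a s
  ch2 : ∀ κ, ∀ a ∈ C κ, ∀ s ∈ S, Ch (insert s (C κ)) t (-1) (lam κ a).2 a s
  inj : ∀ κ, Set.InjOn (lam κ) (C κ)
  bd : ∀ κ, ∀ a ∈ C κ, lam κ a ∈ range l ×ˢ range l

/-- there is no monochromatic cup or cap with `l + 1` edges -/
def NoMono (P : Finset E) (t : ℝ) (c : Sym2 E → Bool) (l : ℕ) : Prop :=
  ∀ Q ⊆ P, ∀ κ, (∀ a ∈ Q, ∀ b ∈ Q, a ≠ b → c s(a, b) = κ) →
    (∀ p q, ¬ Ch Q t 1 l p q) ∧ (∀ p q, ¬ Ch Q t (-1) l p q)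

lemma step {P : Finset E} (hP : GP P) {t : ℝ} (hinj : ∀ p ∈ P, ∀ q ∈ P, ψ t p = ψ t q → p = q)
    {c : Sym2 E → Bool} {l : ℕ} (hl : 1 ≤ l) (hno : NoMono P t c l)
    {C : Bool → Finset E} {lam : Bool → E → ℕ × ℕ} {S : Finset E} (h : Inv P t c l C lam S)
    {m : ℕ} (hm : (2 * l ^ 2 + 1) ^ (m + 1) ≤ S.card) :
    ∃ (C' : Bool → Finset E) (lam' : Bool → E → ℕ × ℕ) (S' : Finset E),
      Inv P t c l C' lam' S' ∧ (2 * l ^ 2 + 1) ^ m ≤ S'.card ∧
      (C' true).card + (C' false).card = (C true).card + (C false).card + 1 := by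
  have hSne : S.Nonempty := by
    rw [← card_pos]
    exact lt_of_lt_of_le (by positivity) hm
  obtain ⟨s, hs, hmin⟩ := S.exists_min_image (ψ t) hSne
  have hst : ∀ u ∈ S.erase s, ψ t s < ψ t u := by
    intro u hu
    rw [mem_erase] at hu
    refine lt_of_le_of_ne (hmin u hu.2) ?_
    intro he
    exact hu.1 (hinj s (h.subS hs) u (h.subS hu.2) he).symm
  -- new labels
  let α : E → ℕ := fun u => ((C (c s(s, u))).filter (fun a => 0 < det a s u)).sup
    (fun a => (lam (c s(s, u)) a).1 + 1)
  let β : E → ℕ := fun u => ((C (c s(s, u))).filter (fun a => 0 < -1 * det a s u)).sup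
    (fun a => (lam (c s(s, u)) a).2 + 1)
  have hcolQ : ∀ u ∈ S.erase s, ∀ κ, c s(s, u) = κ →
      ∀ a ∈ insert u (insert s (C κ)), ∀ b ∈ insert u (insert s (C κ)), a ≠ b → c s(a, b) = κ := by
    intro u hu κ hκ a ha b hb hab
    have hu' := mem_of_mem_erase hu
    simp only [mem_insert] at ha hb
    rcases ha with rfl | rfl | ha <;> rcases hb with rfl | rfl | hb
    · exact absurd rfl hab
    · rw [Sym2.eq_swap]; exact hκ
    · rw [Sym2.eq_swap]; exact h.colS κ b hb _ hu'
    · exact hκ
    · exact absurd rfl hab
    · rw [Sym2.eq_swap]; exact h.colS κ b hb _ hs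
    · exact h.colS κ a ha _ hu'
    · exact h.colS κ a ha _ hs
    · exact h.colC κ a ha b hb hab
  have hsubQ : ∀ u ∈ S.erase s, ∀ κ, insert u (insert s (C κ)) ⊆ P := by
    intro u hu κ
    have hu' := mem_of_mem_erase hu
    refine insert_subset (h.subS hu') (insert_subset (h.subS hs) (h.subC κ))
  have hch1 : ∀ u ∈ S.erase s, Ch (insert u (insert s (C (c s(s, u))))) t 1 (α u) s u := by
    intro u hu
    have hu' := mem_of_mem_erase hu
    by_cases hne : ((C (c s(s, u))).filter (fun a => 0 < det a s u)).Nonempty
    · obtain ⟨a, ha, hae⟩ := exists_mem_eq_sup _ hne (fun a => (lam (c s(s, u)) a).1 + 1)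
      rw [mem_filter] at ha
      have e : α u = (lam (c s(s, u)) a).1 + 1 := hae
      rw [e]
      refine ⟨mem_insert_self _ _, hst u hu, a, ?_, by rw [one_mul]; exact ha.2⟩
      exact Ch.mono_set (subset_insert _ _) _ _ _ (h.ch1 _ a ha.1 s hs)
    · rw [not_nonempty_iff_eq_empty] at hne
      have e : α u = 0 := by
        show Finset.sup _ _ = 0
        rw [hne, sup_empty]; rfl
      rw [e]
      exact ⟨mem_insert_of_mem (mem_insert_self _ _), mem_insert_self _ _, hst u hu⟩
  have hch2 : ∀ u ∈ S.erase s, Ch (insert u (insert s (C (c s(s, u))))) t (-1) (β u) s u := by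
    intro u hu
    have hu' := mem_of_mem_erase hu
    by_cases hne : ((C (c s(s, u))).filter (fun a => 0 < -1 * det a s u)).Nonempty
    · obtain ⟨a, ha, hae⟩ := exists_mem_eq_sup _ hne (fun a => (lam (c s(s, u)) a).2 + 1)
      rw [mem_filter] at ha
      have e : β u = (lam (c s(s, u)) a).2 + 1 := hae
      rw [e]
      refine ⟨mem_insert_self _ _, hst u hu, a, ?_, ha.2⟩
      exact Ch.mono_set (subset_insert _ _) _ _ _ (h.ch2 _ a ha.1 s hs)
    · rw [not_nonempty_iff_eq_empty] at hne
      have e : β u = 0 := by
        show Finset.sup _ _ = 0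
        rw [hne, sup_empty]; rfl
      rw [e]
      exact ⟨mem_insert_of_mem (mem_insert_self _ _), mem_insert_self _ _, hst u hu⟩
  have hα : ∀ u ∈ S.erase s, α u < l := by
    intro u hu
    have h1 : α u ≤ l := by
      refine Finset.sup_le ?_
      intro a ha
      rw [mem_filter] at ha
      have := h.bd _ a ha.1
      rw [mem_product, mem_range] at this
      omega
    refine lt_of_le_of_ne h1 ?_
    intro he
    have := hch1 u hu
    rw [he] at this
    exact (hno _ (hsubQ u hu _) _ (hcolQ u hu _ rfl)).1 _ _ this
  have hβ : ∀ u ∈ S.erase s, β u < l := by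
    intro u hu
    have h1 : β u ≤ l := by
      refine Finset.sup_le ?_
      intro a ha
      rw [mem_filter] at ha
      have := h.bd _ a ha.1
      rw [mem_product, mem_range, mem_range] at this
      omega
    refine lt_of_le_of_ne h1 ?_
    intro he
    have := hch2 u hu
    rw [he] at this
    exact (hno _ (hsubQ u hu _) _ (hcolQ u hu _ rfl)).2 _ _ this
  -- pigeonhole
  let f : E → Bool × ℕ × ℕ := fun u => (c s(s, u), α u, β u)
  let tgt : Finset (Bool × ℕ × ℕ) := univ ×ˢ (range l ×ˢ range l)
  have hf : ∀ u ∈ S.erase s, f u ∈ tgt := by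
    intro u hu
    simp only [f, tgt, mem_product, mem_univ, mem_range, true_and]
    exact ⟨hα u hu, hβ u hu⟩
  have htc : tgt.card = 2 * l ^ 2 := by
    simp only [tgt, card_product, card_univ, Fintype.card_bool, card_range]
    ring
  have htne : tgt.Nonempty := by
    rw [← card_pos, htc]
    positivity
  have hcard : tgt.card * (2 * l ^ 2 + 1) ^ m ≤ (S.erase s).card := by
    rw [card_erase_of_mem hs, htc]
    have h1 : 1 ≤ (2 * l ^ 2 + 1) ^ m := Nat.one_le_pow _ _ (by omega)
    have h2 : (2 * l ^ 2 + 1) ^ (m + 1) = 2 * l ^ 2 * (2 * l ^ 2 + 1) ^ m + (2 * l ^ 2 + 1) ^ m := by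
      ring
    omega
  obtain ⟨y, hy, hyc⟩ := exists_le_card_fiber_of_mul_le_card_of_maps_to hf htne hcard
  set S' := (S.erase s).filter (fun u => f u = y) with hS'
  obtain ⟨κ₀, α₀, β₀⟩ := y
  have hS'm : ∀ u ∈ S', u ∈ S.erase s ∧ c s(s, u) = κ₀ ∧ α u = α₀ ∧ β u = β₀ := by
    intro u hu
    rw [hS', mem_filter] at hu
    obtain ⟨h1, h2⟩ := hu
    simp only [f, Prod.mk.injEq] at h2
    exact ⟨h1, h2.1, h2.2.1, h2.2.2⟩
  have hS'ne : S'.Nonempty := by
    rw [← card_pos]
    exact lt_of_lt_of_le (by positivity) hyc
  have hsC : ∀ κ, s ∉ C κ := by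
    intro κ hsC
    exact lt_irrefl _ (h.lt κ s hsC s hs)
  refine ⟨Function.update C κ₀ (insert s (C κ₀)),
    Function.update lam κ₀ (Function.update (lam κ₀) s (α₀, β₀)), S', ?_, hyc, ?_⟩
  · constructor
    · intro κ
      by_cases hκ : κ = κ₀
      · subst hκ
        rw [Function.update_self]
        exact insert_subset (h.subS hs) (h.subC κ)
      · rw [Function.update_of_ne hκ]
        exact h.subC κ
    · exact (filter_subset _ _).trans ((erase_subset _ _).trans h.subS)
    · intro κ a ha u hu
      have hu' := (hS'm u hu).1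
      by_cases hκ : κ = κ₀
      · subst hκ
        rw [Function.update_self, mem_insert] at ha
        rcases ha with rfl | ha
        · exact hst u hu'
        · exact h.lt κ a ha u (mem_of_mem_erase hu')
      · rw [Function.update_of_ne hκ] at ha
        exact h.lt κ a ha u (mem_of_mem_erase hu')
    · intro κ a ha u hu
      have hu' := (hS'm u hu).1
      by_cases hκ : κ = κ₀
      · subst hκ
        rw [Function.update_self, mem_insert] at ha
        rcases ha with rfl | ha
        · exact (hS'm u hu).2.1
        · exact h.colS κ a ha u (mem_of_mem_erase hu')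
      · rw [Function.update_of_ne hκ] at ha
        exact h.colS κ a ha u (mem_of_mem_erase hu')
    · intro κ a ha b hb hab
      by_cases hκ : κ = κ₀
      · subst hκ
        rw [Function.update_self, mem_insert] at ha hb
        rcases ha with rfl | ha <;> rcases hb with rfl | hb
        · exact absurd rfl hab
        · rw [Sym2.eq_swap]; exact h.colS κ b hb _ hs
        · exact h.colS κ a ha _ hs
        · exact h.colC κ a ha b hb hab
      · rw [Function.update_of_ne hκ] at ha hb
        exact h.colC κ a ha b hb hab
    · intro κ a ha u hu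
      have hu' := (hS'm u hu).1
      by_cases hκ : κ = κ₀
      · subst hκ
        rw [Function.update_self, mem_insert] at ha
        rw [Function.update_self, Function.update_self]
        by_cases has : a = s
        · subst has
          rw [Function.update_self]
          have := hch1 u hu'
          rw [(hS'm u hu).2.1, (hS'm u hu).2.2.1] at this
          exact this
        · rw [Function.update_of_ne has]
          have ha' := ha.resolve_left has
          exact Ch.mono_set (insert_subset_insert _ (subset_insert _ _)) _ _ _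
            (h.ch1 κ a ha' u (mem_of_mem_erase hu'))
      · rw [Function.update_of_ne hκ] at ha ⊢
        rw [Function.update_of_ne hκ]
        exact h.ch1 κ a ha u (mem_of_mem_erase hu')
    · intro κ a ha u hu
      have hu' := (hS'm u hu).1
      by_cases hκ : κ = κ₀
      · subst hκ
        rw [Function.update_self, mem_insert] at ha
        rw [Function.update_self, Function.update_self]
        by_cases has : a = s
        · subst has
          rw [Function.update_self]
          have := hch2 u hu'
          rw [(hS'm u hu).2.1, (hS'm u hu).2.2.2] at this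
          exact this
        · rw [Function.update_of_ne has]
          have ha' := ha.resolve_left has
          exact Ch.mono_set (insert_subset_insert _ (subset_insert _ _)) _ _ _
            (h.ch2 κ a ha' u (mem_of_mem_erase hu'))
      · rw [Function.update_of_ne hκ] at ha ⊢
        rw [Function.update_of_ne hκ]
        exact h.ch2 κ a ha u (mem_of_mem_erase hu')
    · intro κ
      by_cases hκ : κ = κ₀
      · subst hκ
        rw [Function.update_self, Function.update_self]
        obtain ⟨u, hu⟩ := hS'ne
        obtain ⟨hu1, hu2, hu3, hu4⟩ := hS'm u hu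
        have key : ∀ a ∈ C κ, lam κ a ≠ (α₀, β₀) := by
          intro a ha he
          have hu' := mem_of_mem_erase hu1
          have hne1 : a ≠ s := by rintro rfl; exact hsC κ ha
          have hne2 : a ≠ u := by
            rintro rfl
            exact lt_irrefl _ (h.lt κ a ha a hu')
          have hne3 : s ≠ u := (ne_of_mem_erase hu1).symm
          have hd := hP a (h.subC κ ha) s (h.subS hs) u (h.subS hu') hne1 hne2 hne3
          rcases lt_or_gt_of_ne hd with hd | hd
          · have h1 : (lam κ a).2 + 1 ≤ β u := by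
              show _ ≤ Finset.sup _ _
              rw [hu2]
              exact Finset.le_sup (f := fun a => (lam κ a).2 + 1)
                (mem_filter.mpr ⟨ha, by linarith⟩)
            rw [hu4, he] at h1
            simp only at h1
            omega
          · have h1 : (lam κ a).1 + 1 ≤ α u := by
              show _ ≤ Finset.sup _ _
              rw [hu2]
              exact Finset.le_sup (f := fun a => (lam κ a).1 + 1)
                (mem_filter.mpr ⟨ha, hd⟩)
            rw [hu3, he] at h1
            simp only at h1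
            omega
        intro a ha b hb hab
        rw [mem_coe, mem_insert] at ha hb
        by_cases has : a = s <;> by_cases hbs : b = s
        · rw [has, hbs]
        · have hb' := hb.resolve_left hbs
          rw [has, Function.update_self, Function.update_of_ne hbs] at hab
          exact absurd hab.symm (key b hb')
        · have ha' := ha.resolve_left has
          rw [hbs, Function.update_self, Function.update_of_ne has] at hab
          exact absurd hab (key a ha')
        · rw [Function.update_of_ne has, Function.update_of_ne hbs] at hab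
          exact h.inj κ (ha.resolve_left has) (hb.resolve_left hbs) hab
      · rw [Function.update_of_ne hκ, Function.update_of_ne hκ]
        exact h.inj κ
    · intro κ a ha
      by_cases hκ : κ = κ₀
      · subst hκ
        rw [Function.update_self, mem_insert] at ha
        rw [Function.update_self]
        by_cases has : a = s
        · subst has
          rw [Function.update_self]
          have := hy
          simp only [tgt, mem_product, mem_univ, true_and] at this
          rw [mem_product]
          exact this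
        · rw [Function.update_of_ne has]
          exact h.bd κ a (ha.resolve_left has)
      · rw [Function.update_of_ne hκ] at ha ⊢
        exact h.bd κ a ha
  · have hc : (insert s (C κ₀)).card = (C κ₀).card + 1 := card_insert_of_notMem (hsC κ₀)
    cases κ₀ with
    | true =>
      rw [Function.update_self, Function.update_of_ne (by decide), hc]
      omega
    | false =>
      rw [Function.update_self, Function.update_of_ne (by decide), hc]
      omega

lemma iterate {P : Finset E} (hP : GP P) {t : ℝ} (hinj : ∀ p ∈ P, ∀ q ∈ P, ψ t p = ψ t q → p = q)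
    {c : Sym2 E → Bool} {l : ℕ} (hl : 1 ≤ l) (hno : NoMono P t c l) : ∀ (k : ℕ)
    (C : Bool → Finset E) (lam : Bool → E → ℕ × ℕ) (S : Finset E), Inv P t c l C lam S →
    (2 * l ^ 2 + 1) ^ k ≤ S.card → (C true).card + (C false).card + k ≤ 2 * l ^ 2 := by
  intro k
  induction k with
  | zero =>
    intro C lam S h _
    have hb : ∀ κ, (C κ).card ≤ l ^ 2 := by
      intro κ
      have := card_le_card_of_injOn (lam κ) (h.bd κ) (h.inj κ)
      rw [card_product, card_range] at this
      rw [pow_two]; exact this
    have h1 := hb true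
    have h2 := hb false
    omega
  | succ k ih =>
    intro C lam S h hS
    obtain ⟨C', lam', S', h', hS', hc⟩ := step hP hinj hl hno h hS
    have := ih C' lam' S' h' hS'
    omega

/-- Among `(2 l² + 1) ^ (2 l² + 1)` points in general position whose pairs are coloured with two
colours there are `l + 2` points in convex position whose pairs all have the same colour. -/
theorem main {P : Finset E} (hP : GP P) {l : ℕ} (hl : 1 ≤ l)
    (hcard : (2 * l ^ 2 + 1) ^ (2 * l ^ 2 + 1) ≤ P.card) (c : Sym2 E → Bool) :
    ∃ Q ⊆ P, Q.card = l + 2 ∧ HV Q = Q ∧ ∃ κ, ∀ a ∈ Q, ∀ b ∈ Q, a ≠ b → c s(a, b) = κ := by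
  obtain ⟨t, ht⟩ := exists_psi P
  by_contra hcon
  have aux : ∀ Q ⊆ P, ∀ κ, (∀ a ∈ Q, ∀ b ∈ Q, a ≠ b → c s(a, b) = κ) → ∀ σ : ℝ, σ ≠ 0 →
      ∀ p q, ¬ Ch Q t σ l p q := by
    intro Q hQ κ hc σ hσ p q hch
    obtain ⟨x, hx, -, -⟩ := hch.exists_chain
    obtain ⟨h1, h2, h3⟩ := chain_HV (hP.mono hQ) hσ (by omega) hx _ rfl
    exact hcon ⟨_, h1.trans hQ, by omega, h3, κ, fun a ha b hb => hc a (h1 ha) b (h1 hb)⟩
  have hno : NoMono P t c l := by
    intro Q hQ κ hc
    exact ⟨aux Q hQ κ hc 1 (by norm_num), aux Q hQ κ hc (-1) (by norm_num)⟩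
  have := iterate hP ht hl hno (2 * l ^ 2 + 1) (fun _ => ∅) (fun _ _ => (0, 0)) P
    ⟨fun κ => empty_subset _, Subset.refl _, by simp, by simp, by simp, by simp, by simp,
      by intro κ; simp, by simp⟩ hcard
  simp only [card_empty] at this
  omega

end Pool.Agent.H886R2.Mono
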